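import Pool.Agent.K7.H74.AG.Stm
import Pool.Agent.K7.H85.AF.V1

set_option autoImplicit false

/-! Project AG, job V1 (helper85): the Fourier transform, for every vector of coefficients. -/

namespace Pool.Agent.K7.H85.AG
open MeasureTheory Finset
open Pool.Agent.K7.H74.AF (lo blk Box mx e)
open Pool.Agent.K7.H74.AG
open Pool.Agent.K7.H85.AF (ic FF HH Kr sq_eq sq_int e_sum nu lo_le')

/-- the form -/
def fo (k : ℕ) {t : ℕ} (a u : Fin t → ℝ) : ℝ := ∑ i, a i * u i ^ k

lemma fo_meas (k : ℕ) {t : ℕ} (a : Fin t → ℝ) : Measurable (fo k a : (Fin t → ℝ) → ℝ) := by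
  unfold fo
  fun_prop

/-- the points of the box -/
noncomputable def mu {t : ℕ} (b : Fin t → ℕ) : Measure (Fin t → ℝ) :=
  ∑ x ∈ Box b, Measure.dirac fun i => (x i : ℝ)

instance {t : ℕ} (b : Fin t → ℕ) : IsFiniteMeasure (mu b) := by
  unfold mu
  infer_instance

lemma int_mu {E : Type*} [NormedAddCommGroup E] [NormedSpace ℝ E] [CompleteSpace E] {t : ℕ} (b : Fin t → ℕ)
    (g : (Fin t → ℝ) → E) :
    ∫ u, g u ∂(mu b) = ∑ x ∈ Box b, g fun i => (x i : ℝ) := by
  unfold mu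
  rw [integral_finset_sum_measure]
  · simp_rw [integral_dirac]
  · intro x _
    exact integrable_dirac (by simp)

lemma FF_mu (k : ℕ) {t : ℕ} (a : Fin t → ℝ) (b : Fin t → ℕ) (η τ : ℝ) :
    FF (mu b) (fo k a) η τ = (cn k a b η τ : ℝ) := by
  classical
  unfold FF cn
  rw [int_mu, Finset.card_filter]
  push_cast
  refine Finset.sum_congr rfl fun x _ => ?_
  unfold ic fo
  split_ifs <;> rfl

lemma FF_nu (k : ℕ) {t : ℕ} (a : Fin t → ℝ) (b : Fin t → ℕ) (η τ : ℝ) :
    FF (nu b) (fo k a) η τ = vl k a b η τ := by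
  have hm : MeasurableSet {u : Fin t → ℝ | |fo k a u - τ| ≤ η} :=
    measurableSet_le (((fo_meas k a).sub_const τ).abs) measurable_const
  unfold FF vl
  have h1 : (fun u : Fin t → ℝ => ic η τ (fo k a u)) =
      Set.indicator {u | |fo k a u - τ| ≤ η} (fun _ => (1 : ℝ)) := by
    funext u
    rw [Set.indicator_apply]
    rfl
  rw [h1, integral_indicator hm, setIntegral_const, smul_eq_mul, mul_one, Measure.real]
  unfold nu
  rw [← Measure.restrict_pi_pi, Measure.restrict_apply hm, ← volume_pi]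
  congr 2
  ext u
  simp only [Set.mem_inter_iff, Set.mem_setOf_eq, Set.mem_pi, Set.mem_univ, true_imp_iff, Set.mem_Ico]
  exact and_comm

lemma HH_mu (k : ℕ) {t : ℕ} (a : Fin t → ℝ) (b : Fin t → ℕ) (α : ℝ) :
    HH (mu b) (fo k a) α = ∏ i, SB k (b i) (α * a i) := by
  unfold HH SB
  rw [int_mu, Finset.prod_univ_sum]
  refine Finset.sum_congr rfl fun x _ => ?_
  rw [← e_sum]
  unfold fo
  rw [Finset.mul_sum]
  simp_rw [mul_assoc]
  rfl

lemma HH_nu (k : ℕ) {t : ℕ} (a : Fin t → ℝ) (b : Fin t → ℕ) (α : ℝ) :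
    HH (nu b) (fo k a) α = ∏ i, MB k (b i) (α * a i) := by
  unfold HH nu
  have h1 : ∀ u : Fin t → ℝ, Pool.Agent.K7.H74.WS.e (α * fo k a u) = ∏ i, e (α * a i * u i ^ k) := by
    intro u
    rw [Pool.Agent.K7.H85.AF.e_same, ← e_sum]
    unfold fo
    rw [Finset.mul_sum]
    simp_rw [mul_assoc]
  simp_rw [h1]
  rw [integral_fintype_prod_eq_prod (fun i (v : ℝ) => e (α * a i * v ^ k))]
  refine Finset.prod_congr rfl fun i _ => ?_
  unfold MB
  rw [intervalIntegral.integral_of_le (lo_le' _), integral_Ico_eq_integral_Ioc]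

theorem v1 : StV1 := by
  intro k t η hk hη a b
  have h2 := sq_eq (mu b) (nu b) hη (fo k a) (fo k a) (fo_meas k a) (fo_meas k a)
  have h3 := sq_int (mu b) (nu b) hη (fo k a) (fo k a) (fo_meas k a) (fo_meas k a)
  simp_rw [FF_mu, FF_nu, HH_mu, HH_nu] at h2 h3
  rw [← ofReal_integral_eq_lintegral_ofReal h3 (Filter.Eventually.of_forall fun τ => sq_nonneg _), h2]
  exact le_of_eq rfl

end Pool.Agent.K7.H85.AG
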